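import Pool.Agent.MP_ee8c61_ag.N3S4.Core
import Pool.Agent.MP_ee8c61_ag.N3CP.Spec

/-!
Finite generation of the adjoint ring of a divisor.
-/

namespace Pool.Agent.MP_ee8c61_ag.N3.M3S4

open Pool.Agent.MP_ee8c61_ag.M3 Pool.Agent.MP_ee8c61_ag.M3FG

set_option linter.unusedSectionVars false

variable [Base]

open M3 M3E M3FG M3CP

theorem s4_of (hB : SBas) (hC : SCmp) (hD : M3S.StDESC) : StmtS4 := by
  intro f M hM o μ d w hμ hd hw
  obtain ⟨S, H, T, n, p0, tr, gam, φ, h⟩ := hC f M hM o w hw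
  have := h.cus.fin
  have B := hB 3 f M hM
  have t1 : ∀ j, j ≠ o → ∀ Γ : Cu M o, tr (M.e j) (gam Γ) = if Γ.1.1 = j then 1 else 0 := by
    intro j hj Γ
    split_ifs with e
    · exact e ▸ h.cus.one Γ
    · exact h.cus.zero j _ hj fun G hG e' => e (h.cus.inj e' ▸ hG)
  refine s4_core (P := (M.v o).pl) (p0 := p0) (H := H) (T := T) (n := n) (tr := tr) (gam := gam)
    (φ := φ) ⟨rfl, h.trc.p0v, h.pts.HZ, h.pts.H0, h.pts.Hb, h.trc.sec, h.cus.inj, h.cus.aff, t1,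
      fun j hj C _ hC => h.cus.zero j C hj fun G _ e => hC ⟨G, e⟩, fun Γ c θ s hs => ?_,
      fun p hp => ?_, h.adn.1, h.adn.2, h.amb.pos, h.amb.Z, h.amb.nef, h.amb.big,
      fun C hC => ⟨h.amb.eq C hC, h.amb.amp C hC⟩⟩ (hD _ S) (B.R_F o) hμ hd
  · have e := RRES.sub_o Γ c θ
    rw [h.cus.oc Γ _ s (e ▸ hs), bar, e, map_sub, map_zsmul, Finsupp.sub_apply,
      Finsupp.smul_apply, h.cus.one, zsmul_eq_mul, mul_one, ← add_sub_assoc, sub_nonneg]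
  · obtain ⟨κ, h1, h2⟩ := h.cus.snc p ((h.pts.Hp p).2 hp)
    exact ⟨κ, h1, by rintro _ ⟨G, rfl⟩; exact h2 G⟩

end Pool.Agent.MP_ee8c61_ag.N3.M3S4
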