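import Pool.Agent.MP_ee8c61_ag.N3FG.RRES
import Pool.Agent.MP_ee8c61_ag.M3FG.RGOR
import Pool.Agent.MP_ee8c61_ag.M3FG.RPOLY

/-!
Generators of the cone of degrees.
-/

namespace Pool.Agent.MP_ee8c61_ag.N3.M3S4

open Pool.Agent.MP_ee8c61_ag.M3 Pool.Agent.MP_ee8c61_ag.M3FG

set_option linter.unusedSectionVars false

variable [Base]

open M3 M3FG M3FG.RRES Finset

variable {N : ℕ} {M : Mod N} {o : M.J}

theorem cone_KP [Finite (Cu M o)] (μ d : ℕ) : Cone (KP (M := M) (o := o) μ d) := by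
  refine ((Cone.le ?_ ?_).and ((Cone.eq ?_ ?_).and (Cone.all fun j =>
    (Cone.le ?_ ?_).and (Cone.le ?_ ?_)))).and (Cone.all fun Γ =>
    (Cone.le ?_ ?_).and (Cone.le ?_ ?_))
  all_goals
    intros
    simp only [Dg.b, Dg.θ, Pi.add_apply, Pi.zero_apply]
    ring

theorem kp_zero {μ d : ℕ} (hd : 0 < d) {y : Dg M o} (h : KP μ d y) (h0 : y none = 0) : y = 0 := by
  have h1 : y.b = 0 := box_zero hd (h0 ▸ h.1)
  funext i
  rcases i with _ | j | Γ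
  · exact h0
  · exact congrFun h1 j
  · have h2 := h.2 Γ
    rw [h1] at h2
    exact le_antisymm h2.2 h2.1

theorem kp_sum {μ d : ℕ} [Finite (Cu M o)] {l : ℕ} {z : Fin l → Dg M o} (h : ∀ i, KP μ d (z i))
    (n : Fin l → ℕ) : KP μ d (∑ i, n i • z i) := by
  obtain ⟨Λ, -, h2⟩ := cone_KP (M := M) (o := o) μ d
  refine (h2 _).2 fun φ hφ => ?_
  rw [map_sum]
  exact sum_nonneg fun i _ => by
    rw [map_nsmul]
    exact nsmul_nonneg ((h2 _).1 (h i) φ hφ) _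

theorem kp_gens [Finite (Cu M o)] (μ : ℕ) {d : ℕ} (hd : 0 < d) :
    ∃ (l : ℕ) (z : Fin l → Dg M o), (∀ i, KP μ d (z i) ∧ 0 < z i none) ∧
      ∀ y, KP μ d y → ∃ n : Fin l → ℕ, y = ∑ i, n i • z i := by
  have : AddMonoid.FG (Dg M o) :=
    AddGroup.fg_iff_addMonoid_fg.1 (Module.Finite.iff_addGroup_fg.1 inferInstance)
  obtain ⟨T, h1, h2, h3⟩ := poly_cone rowGOR rowPOLY (cone_KP (M := M) (o := o) μ d)
    (κ := Empty) Empty.elim (fun _ => True) 0 fun _ _ _ _ _ _ _ _ _ _ => trivial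
  obtain ⟨l, z, hz⟩ := (h1.subset (Set.sdiff_subset (t := {0}))).fin_param
  have h4 : ∀ i, z i ∈ T \ {0} := fun i => hz.2 ▸ Set.mem_range_self i
  refine ⟨l, z, fun i => ⟨(h2 _ (h4 i).1).1, lt_of_le_of_ne (h2 _ (h4 i).1).1.1.1 fun e =>
    (h4 i).2 (kp_zero hd (h2 _ (h4 i).1).1 e.symm)⟩, fun y hy => ?_⟩
  refine AddSubmonoid.closure_induction (motive := fun y _ => ∃ n : Fin l → ℕ, y = ∑ i, n i • z i)
    (fun t ht => ?_) ⟨0, by simp⟩ ?_ (h3 y hy trivial)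
  · by_cases h0 : t = 0
    · exact ⟨0, by simp [h0]⟩
    obtain ⟨i, rfl⟩ : t ∈ Set.range z := hz.2 ▸ ⟨ht, h0⟩
    refine ⟨Pi.single i 1, ?_⟩
    rw [Finset.sum_eq_single i (fun j _ hj => by simp [hj]) (by simp)]
    simp
  · rintro _ _ - - ⟨n, rfl⟩ ⟨n', rfl⟩
    exact ⟨n + n', by simp [add_smul, sum_add_distrib]⟩

end Pool.Agent.MP_ee8c61_ag.N3.M3S4
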